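import Pool.Agent.H96.JCT.Stmts

namespace Pool.JCT

open Complex Set Topology Filter

theorem inc_sc : IsSimplyConnected (univ : Set ℝ) := by
  have h1 : ContractibleSpace (univ : Set ℝ) :=
    (convex_univ : Convex ℝ (univ : Set ℝ)).contractibleSpace ⟨0, mem_univ _⟩
  show SimplyConnectedSpace (univ : Set ℝ)
  infer_instance

theorem inc_z_cont : Continuous z := by
  have : z = fun p : Pl => (p.1 : ℂ) + (p.2 : ℂ) * I := by
    funext p
    exact Complex.mk_eq_add_mul_I p.1 p.2
  rw [this]
  fun_prop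

theorem inc_z_inj {p q : Pl} (h : z p = z q) : p = q := by
  have h1 := congrArg Complex.re h
  have h2 := congrArg Complex.im h
  exact Prod.ext h1 h2

theorem inc_exists (f : ℝ → Pl) (a b : ℝ) (p : Pl) (hf : Continuous f) (ho : Off f a b p) :
    ∃ F, Lift f a b p F := by
  have hlo : min a b ≤ max a b := min_le_max
  let c : ℝ → ℝ := fun t => max (min a b) (min (max a b) t)
  have hc : Continuous c := by fun_prop
  have hcm : ∀ t, c t ∈ uIcc a b := fun t =>
    ⟨le_max_left _ _, max_le hlo (min_le_left _ _)⟩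
  have hce : ∀ t ∈ uIcc a b, c t = t := by
    intro t ht
    have h1 : min a b ≤ t := ht.1
    have h2 : t ≤ max a b := ht.2
    show max (min a b) (min (max a b) t) = t
    rw [min_eq_right h2, max_eq_right h1]
  have hg : Continuous (fun t => z (f (c t)) - z p) :=
    (inc_z_cont.comp (hf.comp hc)).sub continuous_const
  obtain ⟨F, hF1, hF2⟩ := Complex.exists_continuousOn_eqOn_exp_comp inc_sc isOpen_univ
    (g := fun t => z (f (c t)) - z p) hg.continuousOn (by
      rintro ⟨t, -, ht⟩
      exact ho (c t) (hcm t) (inc_z_inj (sub_eq_zero.1 ht)))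
  refine ⟨F, hF1.mono (subset_univ _), fun t ht => ?_⟩
  have h3 := hF2 (mem_univ t)
  simp only [Function.comp] at h3
  rw [h3, hce t ht]

theorem inc_const (F G : ℝ → ℂ) (a b : ℝ) (hF : ContinuousOn F (uIcc a b))
    (hG : ContinuousOn G (uIcc a b)) (h : ∀ t ∈ uIcc a b, exp (F t) = exp (G t)) :
    F b - F a = G b - G a := by
  have hn : ∀ t ∈ uIcc a b, ∃ n : ℤ, F t - G t = n * (2 * Real.pi * I) := by
    intro t ht
    have h1 : exp (F t - G t) = 1 := by
      rw [exp_sub, h t ht, div_self (exp_ne_zero _)]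
    exact exp_eq_one_iff.1 h1
  have hne : (2 * Real.pi * I : ℂ) ≠ 0 := by
    simp [Real.pi_ne_zero]
  let h' : ℝ → ℝ := fun t => ((F t - G t) / (2 * Real.pi * I)).re
  have hcont : ContinuousOn h' (uIcc a b) :=
    Complex.continuous_re.comp_continuousOn ((hF.sub hG).div_const _)
  have hval : ∀ t ∈ uIcc a b, ∀ n : ℤ, F t - G t = n * (2 * Real.pi * I) → h' t = n := by
    intro t _ n hn
    show ((F t - G t) / (2 * Real.pi * I)).re = n
    rw [hn, mul_div_assoc, div_self hne, mul_one]
    simp
  obtain ⟨n, hna⟩ := hn a left_mem_uIcc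
  obtain ⟨m, hmb⟩ := hn b right_mem_uIcc
  have ha := hval a left_mem_uIcc n hna
  have hb := hval b right_mem_uIcc m hmb
  have hnm : n = m := by
    by_contra hne2
    have hiv := intermediate_value_uIcc hcont
    rw [ha, hb] at hiv
    rcases lt_or_gt_of_ne hne2 with hlt | hlt
    · have h5 : ((n : ℝ) + 1 / 2) ∈ uIcc (n : ℝ) (m : ℝ) := by
        have : (n : ℝ) + 1 ≤ m := by exact_mod_cast hlt
        rw [mem_uIcc]; left; constructor <;> linarith
      obtain ⟨t, ht, hte⟩ := hiv h5
      obtain ⟨k, hk⟩ := hn t ht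
      have h6 := hval t ht k hk
      rw [hte] at h6
      have h7 : (2 * n + 1 : ℝ) = 2 * k := by linarith
      have h8 : 2 * n + 1 = 2 * k := by exact_mod_cast h7
      omega
    · have h5 : ((m : ℝ) + 1 / 2) ∈ uIcc (n : ℝ) (m : ℝ) := by
        have : (m : ℝ) + 1 ≤ n := by exact_mod_cast hlt
        rw [mem_uIcc]; right; constructor <;> linarith
      obtain ⟨t, ht, hte⟩ := hiv h5
      obtain ⟨k, hk⟩ := hn t ht
      have h6 := hval t ht k hk
      rw [hte] at h6
      have h7 : (2 * m + 1 : ℝ) = 2 * k := by linarith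
      have h8 : 2 * m + 1 = 2 * k := by exact_mod_cast h7
      omega
  subst hnm
  have h9 : F a - G a = F b - G b := by rw [hna, hmb]
  linear_combination -h9

theorem inc_thm : INC_S := by
  intro f a b p hf ho
  have hex := inc_exists f a b p hf ho
  refine ⟨hex, fun F hF => ?_⟩
  have h1 : inc f a b p = hex.choose b - hex.choose a := by
    unfold inc
    rw [dif_pos hex]
  rw [h1]
  have h2 := hex.choose_spec
  exact inc_const F hex.choose a b hF.1 h2.1 (fun t ht => by rw [hF.2 t ht, h2.2 t ht])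

end Pool.JCT
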